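import Pool.Agent.W143.PD.Basic

set_option autoImplicit false

namespace Pool.Agent.W143.PD

open SimpleGraph Vx

theorem lipG (φ : Vx → ℕ)
    (hφ : ∀ v, v ≠ root → φ v ≤ φ (parent v) + 1 ∧ φ (parent v) ≤ φ v + 1)
    (h1 : φ root ≤ φ p39 + 1) (h2 : φ p39 ≤ φ root + 1) (u v : Vx) :
    φ u ≤ φ v + G.dist u v := by
  apply lip G_conn
  rintro u v ((⟨h3, h4⟩ | ⟨h3, h4⟩) | ⟨h3, h4⟩ | ⟨h3, h4⟩)
  · rw [← h4]; exact (hφ u h3).1
  · rw [← h4]; exact (hφ v h3).2
  · rw [h3, h4]; exact h1
  · rw [h3, h4]; exact h2

theorem G_adj_parent {v : Vx} (h : v ≠ root) : G.Adj v (parent v) := Or.inl (T_adj_parent h)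

theorem G_adj_root : G.Adj root p39 := Or.inr (Or.inl ⟨rfl, rfl⟩)

theorem leaf_adj (x : Fin 20) (v : Vx) (h : G.Adj (leaf x) v) : v = p39 := by
  rcases h with (⟨h3, h4⟩ | ⟨h3, h4⟩) | ⟨h3, h4⟩ | ⟨h3, h4⟩
  · rw [← h4]; rfl
  · exfalso
    cases v with
    | root => exact h3 rfl
    | leg b q => simp only [parent] at h4; split_ifs at h4
    | path t => simp only [parent] at h4; split_ifs at h4
    | leaf y => simp [parent] at h4
  · exact absurd h3 (by simp)
  · exact absurd h4 (by simp)

theorem leaf_dist (x : Fin 20) (v : Vx) (h : v ≠ leaf x) :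
    G.dist p39 v + 1 ≤ G.dist (leaf x) v := by
  obtain ⟨w, hw⟩ := G_conn.exists_walk_length_eq_dist (leaf x) v
  rw [← hw]
  cases w with
  | nil => exact absurd rfl h
  | cons ha p =>
    have := leaf_adj x _ ha
    subst this
    have := SimpleGraph.dist_le p
    simp only [Walk.length_cons]
    omega

theorem leg_up (b : Fin 19 → Bool) : ∀ (n : ℕ) (q : Fin 38), q.val = n →
    G.dist (leg b ⟨0, by omega⟩) (leg b q) ≤ n := by
  intro n
  induction n with
  | zero =>
    intro q e
    have : q = ⟨0, by omega⟩ := Fin.ext e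
    rw [this]; simp
  | succ n ih =>
    intro q e
    have h0 : q.val ≠ 0 := by omega
    have h1 : G.Adj (leg b q) (leg b ⟨q.val - 1, by omega⟩) := by
      have := G_adj_parent (v := leg b q) (by simp)
      simpa [parent, h0] using this
    have h2 := ih ⟨q.val - 1, by omega⟩ (by simp only; omega)
    have h3 := dist_step G_conn h1 (leg b ⟨0, by omega⟩)
    rw [G.dist_comm]
    rw [G.dist_comm] at h2
    omega

/-- height in a leg -/
def ht (b : Fin 19 → Bool) : Vx → ℕ
  | leg b' q => if b' = b then q.val + 1 else 0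
  | _ => 0

theorem leg_low (b : Fin 19 → Bool) (q : Fin 38) :
    q.val ≤ G.dist (leg b ⟨0, by omega⟩) (leg b q) := by
  have := lipG (ht b) (by
    intro v hv
    cases v with
    | root => exact absurd rfl hv
    | leg b' q =>
      by_cases hb : b' = b
      · by_cases hq : q.val = 0
        · simp only [parent, hq, if_true, ht, hb]; omega
        · simp only [parent, hq, if_false, ht, hb, if_true]; omega
      · by_cases hq : q.val = 0
        · simp only [parent, hq, if_true, ht, hb, if_false]; omega
        · simp only [parent, hq, if_false, ht, hb]; omega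
    | path t =>
      by_cases ht' : t.val = 0
      · simp only [parent, ht', if_true, ht]; omega
      · simp only [parent, ht', if_false, ht]; omega
    | leaf x => simp only [parent, ht]; omega) (by simp [ht]) (by simp [ht])
    (leg b q) (leg b ⟨0, by omega⟩)
  simp only [ht, if_true] at this
  rw [G.dist_comm]
  omega

theorem leg_out (b : Fin 19 → Bool) (v : Vx) (hv : ∀ q, v ≠ leg b q) :
    G.dist root v + 1 ≤ G.dist (leg b ⟨0, by omega⟩) v := by
  classical
  have hstep : ∀ a c : Vx, G.Adj a c → G.dist a v ≤ G.dist c v + 1 :=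
    fun a c h => dist_step G_conn h v
  let φ : Vx → ℕ := fun w => match w with
    | leg b' q => if b' = b then q.val + 1 + G.dist root v else G.dist (leg b' q) v
    | root => G.dist root v
    | path t => G.dist (path t) v
    | leaf x => G.dist (leaf x) v
  have hφ : ∀ w, w ≠ root → φ w ≤ φ (parent w) + 1 ∧ φ (parent w) ≤ φ w + 1 := by
    intro w hw
    have e1 := hstep w (parent w) (G_adj_parent hw)
    have e2 := hstep (parent w) w (G_adj_parent hw).symm
    cases w with
    | root => exact absurd rfl hw
    | leg b' q =>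
      by_cases hb : b' = b
      · by_cases hq : q.val = 0
        · simp only [parent, hq, if_true, φ, hb]; omega
        · simp only [parent, hq, if_false, φ, hb, if_true]; omega
      · by_cases hq : q.val = 0
        · simp only [parent, hq, if_true] at e1 e2
          simp only [parent, hq, if_true, φ, hb, if_false]; omega
        · simp only [parent, hq, if_false] at e1 e2
          simp only [parent, hq, if_false, φ, hb]; omega
    | path t =>
      by_cases ht' : t.val = 0
      · simp only [parent, ht', if_true] at e1 e2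
        simp only [parent, ht', if_true, φ]; omega
      · simp only [parent, ht', if_false] at e1 e2
        simp only [parent, ht', if_false, φ]; omega
    | leaf x =>
      simp only [parent] at e1 e2
      simp only [parent, φ]; omega
  have h1 : φ root ≤ φ p39 + 1 := hstep root p39 G_adj_root
  have h2 : φ p39 ≤ φ root + 1 := hstep p39 root G_adj_root.symm
  have := lipG φ hφ h1 h2 (leg b ⟨0, by omega⟩) v
  have h3 : φ (leg b ⟨0, by omega⟩) = 1 + G.dist root v := by simp [φ]
  have h4 : φ v = 0 := by
    cases v with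
    | root => simp [φ]
    | leg b' q =>
      have : b' ≠ b := by
        intro h; subst h; exact hv q rfl
      simp [φ, this]
    | path t => simp [φ]
    | leaf x => simp [φ]
  rw [h3, h4] at this
  omega

theorem root_adj_leg (b : Fin 19 → Bool) : G.Adj (leg b ⟨0, by omega⟩) root := by
  have := G_adj_parent (v := leg b ⟨0, by omega⟩) (by simp)
  simpa [parent] using this

theorem leg_leaf (b : Fin 19 → Bool) (x : Fin 20) :
    G.dist (leg b ⟨0, by omega⟩) (leaf x) ≤ 3 := by
  have h1 := dist_step G_conn (root_adj_leg b) (leaf x)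
  have h2 := dist_step G_conn G_adj_root (leaf x)
  have h3 : G.Adj p39 (leaf x) := (G_adj_parent (v := leaf x) (by simp)).symm
  have h4 : G.dist p39 (leaf x) = 1 := SimpleGraph.dist_eq_one_iff_adj.mpr h3
  omega

section
variable {m : ℕ} (g : Vx → Fin m) (hg : Function.Surjective g)
include hg

theorem leaf_R_le (x y : Fin 20) (h : g (leaf x) = g (leaf y)) (X : Fin m) :
    R G g X (leaf y) ≤ R G g X (leaf x) := by
  obtain ⟨v, hv, e⟩ := R_attained G g hg X (leaf x)
  rw [← e]
  by_cases hx : v = leaf x
  · subst hx
    have : g (leaf y) = X := by rw [← h]; exact hv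
    refine (R_le G g X (leaf y) (leaf y) this).trans ?_
    simp
  · refine (R_le G g X (leaf y) v hv).trans ?_
    have h1 := leaf_dist x v hx
    have h2 := dist_step G_conn (G_adj_parent (v := leaf y) (by simp)) v
    simp only [parent] at h2
    exact h2.trans h1

theorem leg_R_le (b b' : Fin 19 → Bool) (x : Fin 20)
    (h0 : g (leg b ⟨0, by omega⟩) = g (leg b' ⟨0, by omega⟩))
    (h1 : g (leg b ⟨1, by omega⟩) = g (leg b' ⟨1, by omega⟩))
    (h2 : g (leg b ⟨2, by omega⟩) = g (leg b' ⟨2, by omega⟩)) :
    R G g (g (leaf x)) (leg b' ⟨0, by omega⟩) ≤ R G g (g (leaf x)) (leg b ⟨0, by omega⟩) := by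
  obtain ⟨v, hv, e⟩ := R_attained G g hg (g (leaf x)) (leg b ⟨0, by omega⟩)
  rw [← e]
  by_cases hb : ∃ q, v = leg b q
  · obtain ⟨q, rfl⟩ := hb
    have hlow := leg_low b q
    by_cases hq : 3 ≤ q.val
    · refine (R_le G g _ _ (leaf x) rfl).trans ?_
      have := leg_leaf b' x
      omega
    · have hsame : g (leg b' q) = g (leg b q) := by
        have : q.val = 0 ∨ q.val = 1 ∨ q.val = 2 := by omega
        rcases this with h | h | h
        · have : q = ⟨0, by omega⟩ := Fin.ext h
          rw [this]; exact h0.symm
        · have : q = ⟨1, by omega⟩ := Fin.ext h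
          rw [this]; exact h1.symm
        · have : q = ⟨2, by omega⟩ := Fin.ext h
          rw [this]; exact h2.symm
      refine (R_le G g _ _ (leg b' q) (hsame.trans hv)).trans ?_
      exact (leg_up b' q.val q rfl).trans hlow
  · have hlow := leg_out b v (fun q h => hb ⟨q, h⟩)
    refine (R_le G g _ _ v hv).trans ?_
    exact (dist_step G_conn (root_adj_leg b') v).trans hlow

theorem leg_R_root (b : Fin 19 → Bool) (X : Fin m) :
    R G g X root ≤ R G g X (leg b ⟨0, by omega⟩) + 1 ∧
      R G g X (leg b ⟨0, by omega⟩) ≤ R G g X root + 1 := by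
  constructor
  · obtain ⟨v, hv, e⟩ := R_attained G g hg X (leg b ⟨0, by omega⟩)
    rw [← e]
    exact (R_le G g X root v hv).trans (dist_step G_conn (root_adj_leg b).symm v)
  · obtain ⟨v, hv, e⟩ := R_attained G g hg X root
    rw [← e]
    exact (R_le G g X _ v hv).trans (dist_step G_conn (root_adj_leg b) v)

end

theorem no_resolving {m : ℕ} (hm : m ≤ 23) (g : Vx → Fin m) (hg : Function.Surjective g)
    (hr : ∀ u w : Vx, (∀ i : Fin m, R G g i u = R G g i w) → u = w) : False := by
  classical
  have hinj : Function.Injective (fun x : Fin 20 => g (leaf x)) := by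
    intro x y h
    have := hr (leaf x) (leaf y) (fun i => le_antisymm
      (leaf_R_le g hg y x h.symm i) (leaf_R_le g hg x y h i))
    simpa using this
  let S : Finset (Fin m) := Finset.univ.image (fun x : Fin 20 => g (leaf x))
  have hS : S.card = 20 := by
    rw [Finset.card_image_of_injective _ hinj]; simp
  let A := {X : Fin m // X ∉ S}
  have hA : Fintype.card A = m - 20 := by
    have := Fintype.card_subtype_compl (fun X : Fin m => X ∈ S)
    rw [Fintype.card_fin, Fintype.card_coe, hS] at this
    exact this
  let Ψ : (Fin 19 → Bool) → (Fin m × Fin m × Fin m) × (A → Fin 3) := fun b =>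
    ((g (leg b ⟨0, by omega⟩), g (leg b ⟨1, by omega⟩), g (leg b ⟨2, by omega⟩)),
      fun X => ⟨R G g X.1 (leg b ⟨0, by omega⟩) + 1 - R G g X.1 root, by
        have := leg_R_root g hg b X.1; omega⟩)
  have hΨ : Function.Injective Ψ := by
    intro b b' h
    have h' := h
    simp only [Ψ, Prod.mk.injEq] at h'
    obtain ⟨⟨h0, h1, h2⟩, h3⟩ := h'
    have := hr (leg b ⟨0, by omega⟩) (leg b' ⟨0, by omega⟩) (by
      intro X
      by_cases hX : X ∈ S
      · simp only [S, Finset.mem_image, Finset.mem_univ, true_and] at hX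
        obtain ⟨x, rfl⟩ := hX
        exact le_antisymm (leg_R_le g hg b' b x h0.symm h1.symm h2.symm)
          (leg_R_le g hg b b' x h0 h1 h2)
      · have h4 := congrFun h3 ⟨X, hX⟩
        rw [Fin.mk.injEq] at h4
        have h5 := leg_R_root g hg b X
        have h6 := leg_R_root g hg b' X
        simp only at h4
        omega)
    simpa using this
  have hcard := Fintype.card_le_of_injective Ψ hΨ
  simp only [Fintype.card_fun, Fintype.card_bool, Fintype.card_fin, Fintype.card_prod, hA] at hcard
  have h1 : m * (m * m) ≤ 23 * (23 * 23) := Nat.mul_le_mul hm (Nat.mul_le_mul hm hm)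
  have h2 : 3 ^ (m - 20) ≤ 3 ^ 3 := Nat.pow_le_pow_right (by norm_num) (by omega)
  have h3 := Nat.mul_le_mul h1 h2
  have h4 := hcard.trans h3
  norm_num at h4

end Pool.Agent.W143.PD
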