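import Pool.Agent.W143.PD.Basic

set_option autoImplicit false

namespace Pool.Agent.W143.PD

open SimpleGraph Vx

def cls : Vx → Fin 22
  | root => ⟨0, by omega⟩
  | path _ => ⟨1, by omega⟩
  | leg b h => if (h.val % 2 = 0 ↔ b ⟨h.val / 2, by omega⟩ = true)
      then ⟨3 + h.val / 2, by omega⟩ else ⟨2, by omega⟩
  | leaf x => ⟨2 + x.val, by omega⟩

def pos (b : Fin 19 → Bool) (j : Fin 19) : ℕ := if b j = true then 2 * j.val else 2 * j.val + 1

theorem pos_lt (b : Fin 19 → Bool) (j : Fin 19) : pos b j < 38 := by
  unfold pos; split_ifs <;> omega

theorem cls_leg (b : Fin 19 → Bool) (h : Fin 38) (j : Fin 19) :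
    cls (leg b h) = (⟨3 + j.val, by omega⟩ : Fin 22) ↔ h.val = pos b j := by
  constructor
  · intro e
    simp only [cls] at e
    split_ifs at e with h1
    · rw [Fin.mk.injEq] at e
      have hj : (⟨h.val / 2, by omega⟩ : Fin 19) = j := Fin.ext (by simp only; omega)
      rw [hj] at h1
      unfold pos
      split_ifs with h2
      · have := h1.mpr h2; omega
      · have : ¬ (h.val % 2 = 0) := fun h3 => h2 (h1.mp h3)
        omega
    · rw [Fin.mk.injEq] at e; omega
  · intro e
    have hj : (⟨h.val / 2, by omega⟩ : Fin 19) = j := Fin.ext (by
      simp only; unfold pos at e; split_ifs at e <;> omega)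
    simp only [cls]
    rw [if_pos]
    · rw [Fin.mk.injEq]; have := congrArg Fin.val hj; simp only at this; omega
    · rw [hj]
      unfold pos at e
      split_ifs at e with h2
      · exact ⟨fun _ => h2, fun _ => by omega⟩
      · exact ⟨fun h3 => by omega, fun h3 => absurd h3 h2⟩

theorem cls_surj : Function.Surjective cls := by
  intro i
  by_cases h0 : i.val = 0
  · exact ⟨root, Fin.ext (by simp [cls, h0])⟩
  by_cases h1 : i.val = 1
  · exact ⟨path ⟨0, by omega⟩, Fin.ext (by simp [cls, h1])⟩
  · exact ⟨leaf ⟨i.val - 2, by omega⟩, Fin.ext (by simp only [cls]; omega)⟩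

theorem cls_root {v : Vx} (h : cls v = (⟨0, by omega⟩ : Fin 22)) : v = root := by
  cases v with
  | root => rfl
  | leg b x =>
    simp only [cls] at h
    split_ifs at h <;> rw [Fin.mk.injEq] at h <;> omega
  | path t => simp only [cls] at h; rw [Fin.mk.injEq] at h; omega
  | leaf x => simp only [cls] at h; rw [Fin.mk.injEq] at h; omega

theorem lipT (φ : Vx → ℕ)
    (hφ : ∀ v, v ≠ root → φ v ≤ φ (parent v) + 1 ∧ φ (parent v) ≤ φ v + 1) (u v : Vx) :
    φ u ≤ φ v + T.dist u v := by
  apply lip T_conn
  rintro u v (⟨h1, h2⟩ | ⟨h1, h2⟩)
  · rw [← h2]; exact (hφ u h1).1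
  · rw [← h2]; exact (hφ v h1).2

theorem dist_root_le : ∀ (n : ℕ) (v : Vx), depth v = n → T.dist v root ≤ n := by
  intro n
  induction n with
  | zero =>
    intro v hv
    by_cases h : v = root
    · rw [h]; simp
    · have := depth_parent v h
      omega
  | succ n ih =>
    intro v hv
    by_cases h : v = root
    · rw [h]; simp
    · have := depth_parent v h
      have h2 := ih (parent v) (by omega)
      have h3 := dist_step T_conn (T_adj_parent h) root
      omega

theorem dist_root (v : Vx) : T.dist v root = depth v := by
  apply le_antisymm (dist_root_le _ v rfl)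
  have := lipT depth (fun v h => by have := depth_parent v h; omega) v root
  simpa [depth] using this

theorem R_root (v : Vx) : R T cls (⟨0, by omega⟩ : Fin 22) v = depth v := by
  obtain ⟨w, hw, h⟩ := R_attained T cls cls_surj (⟨0, by omega⟩ : Fin 22) v
  rw [cls_root hw, dist_root] at h
  exact h.symm

theorem R_zero {u : Vx} {i : Fin 22} (h : R T cls i u = 0) : cls u = i := by
  obtain ⟨w, hw, h2⟩ := R_attained T cls cls_surj i u
  rw [h] at h2
  have := (T_conn.dist_eq_zero_iff).mp h2
  rw [this]; exact hw

theorem R_self (u : Vx) : R T cls (cls u) u = 0 := by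
  have := R_le T cls (cls u) u u rfl
  simpa using this

/-- distances along a leg -/
theorem leg_le (b : Fin 19 → Bool) : ∀ (n : ℕ) (h q : Fin 38), q.val + n = h.val →
    T.dist (leg b h) (leg b q) ≤ n := by
  intro n
  induction n with
  | zero =>
    intro h q e
    have : q = h := Fin.ext (by omega)
    rw [this]; simp
  | succ n ih =>
    intro h q e
    have h0 : h.val ≠ 0 := by omega
    have h1 : T.Adj (leg b h) (leg b ⟨h.val - 1, by omega⟩) := by
      have := T_adj_parent (v := leg b h) (by simp)
      simpa [parent, h0] using this
    have h2 := ih ⟨h.val - 1, by omega⟩ q (by simp only; omega)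
    have h3 := dist_step T_conn h1 (leg b q)
    omega

/-- Lipschitz function measuring the distance from a vertex of a leg -/
def phi (b : Fin 19 → Bool) (h : Fin 38) : Vx → ℕ
  | root => h.val + 1
  | leg b' q => if b' = b then (if q.val ≤ h.val then h.val - q.val else q.val - h.val)
      else h.val + 1 + (q.val + 1)
  | path t => h.val + 1 + (t.val + 1)
  | leaf _ => h.val + 1 + 41

theorem phi_lip (b : Fin 19 → Bool) (h : Fin 38) (v : Vx) (hv : v ≠ root) :
    phi b h v ≤ phi b h (parent v) + 1 ∧ phi b h (parent v) ≤ phi b h v + 1 := by
  cases v with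
  | root => exact absurd rfl hv
  | leg b' q =>
    by_cases hb : b' = b
    · by_cases hq : q.val = 0
      · simp only [parent, hq, if_true, phi, hb]
        constructor <;> split_ifs <;> omega
      · simp only [parent, hq, if_false, phi, hb, if_true]
        constructor <;> split_ifs <;> omega
    · by_cases hq : q.val = 0
      · simp only [parent, hq, if_true, phi, hb, if_false]
        omega
      · simp only [parent, hq, if_false, phi, hb]
        omega
  | path t =>
    by_cases ht : t.val = 0
    · simp only [parent, ht, if_true, phi]; omega
    · simp only [parent, ht, if_false, phi]; omega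
  | leaf x => simp only [parent, phi]; omega

theorem R_leg (b : Fin 19 → Bool) (h : Fin 38) (j : Fin 19) :
    R T cls (⟨3 + j.val, by omega⟩ : Fin 22) (leg b h) =
      if pos b j ≤ h.val then h.val - pos b j else pos b j - h.val := by
  have hpos := pos_lt b j
  have hp2 : pos b j = 2 * j.val ∨ pos b j = 2 * j.val + 1 := by
    unfold pos; split_ifs <;> simp
  apply le_antisymm
  · have h1 : cls (leg b ⟨pos b j, hpos⟩) = (⟨3 + j.val, by omega⟩ : Fin 22) :=
      (cls_leg b _ j).mpr rfl
    refine (R_le T cls _ (leg b h) _ h1).trans ?_
    split_ifs with h2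
    · exact leg_le b _ _ _ (by simp only; omega)
    · rw [T.dist_comm]
      exact leg_le b _ _ _ (by simp only; omega)
  · obtain ⟨v, hv, e⟩ := R_attained T cls cls_surj (⟨3 + j.val, by omega⟩ : Fin 22) (leg b h)
    rw [← e, T.dist_comm]
    have h1 := lipT (phi b h) (phi_lip b h) v (leg b h)
    have h2 : phi b h (leg b h) = 0 := by simp [phi]
    rw [h2] at h1
    refine le_trans ?_ (le_trans h1 (by omega))
    cases v with
    | root => simp only [cls] at hv; rw [Fin.mk.injEq] at hv; omega
    | path t => simp only [cls] at hv; rw [Fin.mk.injEq] at hv; omega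
    | leaf x => simp only [phi]; split_ifs <;> omega
    | leg b' q =>
      rw [cls_leg] at hv
      have hp3 : pos b' j = 2 * j.val ∨ pos b' j = 2 * j.val + 1 := by
        unfold pos; split_ifs <;> simp
      simp only [phi]
      by_cases hb : b' = b
      · rw [hb] at hv
        simp only [hb, if_true]
        split_ifs <;> omega
      · simp only [hb, if_false]
        split_ifs <;> omega

theorem tree_resolving (u w : Vx) (h : ∀ i : Fin 22, R T cls i u = R T cls i w) : u = w := by
  have hc : cls u = cls w := by
    have := h (cls w)
    rw [R_self w] at this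
    exact R_zero this
  have hd : depth u = depth w := by
    have := h ⟨0, by omega⟩
    rwa [R_root, R_root] at this
  cases u with
  | root =>
    cases w with
    | root => rfl
    | leg b q => simp [depth] at hd
    | path t => simp [depth] at hd
    | leaf x => simp [depth] at hd
  | leg b q =>
    cases w with
    | root => simp [depth] at hd
    | leg b' q' =>
      simp only [depth] at hd
      have hq : q = q' := Fin.ext (by omega)
      subst hq
      have : b = b' := by
        funext j
        have := h ⟨3 + j.val, by omega⟩
        rw [R_leg, R_leg] at this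
        by_contra hne
        rcases Bool.eq_false_or_eq_true (b j) with h1 | h1 <;>
          rcases Bool.eq_false_or_eq_true (b' j) with h2 | h2
        · exact hne (h1.trans h2.symm)
        · simp only [pos, h1, h2] at this
          simp only [if_true] at this
          split_ifs at this <;> omega
        · simp only [pos, h1, h2] at this
          simp only [if_true] at this
          split_ifs at this <;> omega
        · exact hne (h1.trans h2.symm)
      rw [this]
    | path t =>
      exfalso
      simp only [cls] at hc
      split_ifs at hc <;> rw [Fin.mk.injEq] at hc <;> omega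
    | leaf x => simp only [depth] at hd; omega
  | path t =>
    cases w with
    | root => simp [depth] at hd
    | leg b' q' =>
      exfalso
      simp only [cls] at hc
      split_ifs at hc <;> rw [Fin.mk.injEq] at hc <;> omega
    | path t' =>
      simp only [depth] at hd
      have : t = t' := Fin.ext (by omega)
      rw [this]
    | leaf x => simp only [depth] at hd; omega
  | leaf x =>
    cases w with
    | root => simp [depth] at hd
    | leg b' q' => simp only [depth] at hd; omega
    | path t' => simp only [depth] at hd; omega
    | leaf x' =>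
      simp only [cls] at hc
      rw [Fin.mk.injEq] at hc
      have : x = x' := Fin.ext (by omega)
      rw [this]

end Pool.Agent.W143.PD
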