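import Mathlib

set_option autoImplicit false

namespace Pool.Agent.W143.PD

open SimpleGraph

/-- lower bound for distances by 1-Lipschitz functions -/
theorem lip {V : Type} {H : SimpleGraph V} (hc : H.Connected) (φ : V → ℕ)
    (hφ : ∀ u v, H.Adj u v → φ u ≤ φ v + 1) (u v : V) : φ u ≤ φ v + H.dist u v := by
  obtain ⟨w, hw⟩ := hc.exists_walk_length_eq_dist u v
  rw [← hw]
  clear hw
  induction w with
  | nil => simp
  | cons h p ih =>
    have := hφ _ _ h
    simp only [Walk.length_cons]
    omega

theorem dist_step {V : Type} {H : SimpleGraph V} (hc : H.Connected) {u v : V} (h : H.Adj u v)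
    (w : V) : H.dist u w ≤ H.dist v w + 1 := by
  have h1 := hc.dist_triangle (u := u) (v := v) (w := w)
  have h2 : H.dist u v = 1 := SimpleGraph.dist_eq_one_iff_adj.mpr h
  omega

/-- distance to a class -/
noncomputable def R {V : Type} (H : SimpleGraph V) {k : ℕ} (g : V → Fin k) (X : Fin k) (u : V) : ℕ :=
  sInf ((fun v => H.dist u v) '' {v | g v = X})

theorem R_le {V : Type} (H : SimpleGraph V) {k : ℕ} (g : V → Fin k) (X : Fin k) (u v : V)
    (h : g v = X) : R H g X u ≤ H.dist u v :=
  Nat.sInf_le ⟨v, h, rfl⟩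

theorem R_attained {V : Type} (H : SimpleGraph V) {k : ℕ} (g : V → Fin k)
    (hg : Function.Surjective g) (X : Fin k) (u : V) :
    ∃ v, g v = X ∧ H.dist u v = R H g X u := by
  obtain ⟨v0, hv0⟩ := hg X
  have : R H g X u ∈ ((fun v => H.dist u v) '' {v | g v = X}) :=
    Nat.sInf_mem ⟨_, v0, hv0, rfl⟩
  obtain ⟨v, hv, h⟩ := this
  exact ⟨v, hv, h⟩

/-- The vertices. -/
inductive Vx : Type
  | root : Vx
  | leg (b : Fin 19 → Bool) (h : Fin 38) : Vx
  | path (t : Fin 40) : Vx
  | leaf (x : Fin 20) : Vx

open Vx

noncomputable def code : Vx → (Unit ⊕ ((Fin 19 → Bool) × Fin 38)) ⊕ (Fin 40 ⊕ Fin 20)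
  | root => Sum.inl (Sum.inl ())
  | leg b h => Sum.inl (Sum.inr (b, h))
  | path t => Sum.inr (Sum.inl t)
  | leaf x => Sum.inr (Sum.inr x)

theorem code_inj : Function.Injective code := by
  intro u v h
  cases u <;> cases v <;> simp_all [code]

instance : Finite Vx := Finite.of_injective code code_inj

noncomputable instance : Fintype Vx := Fintype.ofFinite Vx

def depth : Vx → ℕ
  | root => 0
  | leg _ h => h.val + 1
  | path t => t.val + 1
  | leaf _ => 41

def parent : Vx → Vx
  | root => root
  | leg b h => if h.val = 0 then root else leg b ⟨h.val - 1, by omega⟩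
  | path t => if t.val = 0 then root else path ⟨t.val - 1, by omega⟩
  | leaf _ => path ⟨39, by omega⟩

theorem depth_parent (v : Vx) (h : v ≠ root) : depth (parent v) + 1 = depth v := by
  cases v with
  | root => exact absurd rfl h
  | leg b h =>
    simp only [parent]
    split_ifs with h0
    · simp [depth, h0]
    · simp only [depth]; omega
  | path t =>
    simp only [parent]
    split_ifs with h0
    · simp [depth, h0]
    · simp only [depth]; omega
  | leaf x => simp [parent, depth]

/-- the tree -/
def T : SimpleGraph Vx where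
  Adj u v := (u ≠ root ∧ parent u = v) ∨ (v ≠ root ∧ parent v = u)
  symm := ⟨fun u v h => h.symm⟩
  loopless := ⟨fun u h => by
    rcases h with ⟨h1, h2⟩ | ⟨h1, h2⟩
    · have := depth_parent u h1
      rw [h2] at this; omega
    · have := depth_parent u h1
      rw [h2] at this; omega⟩

abbrev p39 : Vx := path ⟨39, by omega⟩

/-- the unicyclic graph -/
def G : SimpleGraph Vx where
  Adj u v := T.Adj u v ∨ (u = root ∧ v = p39) ∨ (v = root ∧ u = p39)
  symm := ⟨fun u v h => by
    rcases h with h | h | h
    · exact Or.inl h.symm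
    · exact Or.inr (Or.inr h)
    · exact Or.inr (Or.inl h)⟩
  loopless := ⟨fun u h => by
    rcases h with h | ⟨h1, h2⟩ | ⟨h1, h2⟩
    · exact T.loopless.irrefl u h
    · rw [h1] at h2; exact absurd h2 (by simp)
    · rw [h1] at h2; exact absurd h2 (by simp)⟩

theorem T_le_G : T ≤ G := fun _ _ h => Or.inl h

theorem T_adj_parent {v : Vx} (h : v ≠ root) : T.Adj v (parent v) := Or.inl ⟨h, rfl⟩

theorem reach_root : ∀ (n : ℕ) (v : Vx), depth v = n → T.Reachable v root := by
  intro n
  induction n with
  | zero =>
    intro v hv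
    by_cases h : v = root
    · rw [h]
    · have := depth_parent v h
      omega
  | succ n ih =>
    intro v hv
    by_cases h : v = root
    · rw [h]
    · have := depth_parent v h
      exact (T_adj_parent h).reachable.trans (ih (parent v) (by omega))

theorem T_conn : T.Connected := by
  haveI : Nonempty Vx := ⟨root⟩
  refine ⟨?_⟩
  intro u v
  exact (reach_root _ u rfl).trans (reach_root _ v rfl).symm

theorem G_conn : G.Connected := T_conn.mono T_le_G

theorem T_edges : T.edgeSet = (fun v => s(v, parent v)) '' {v | v ≠ root} := by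
  ext e
  induction e using Sym2.ind with
  | _ u v =>
    simp only [mem_edgeSet, Set.mem_image, Set.mem_setOf_eq]
    constructor
    · rintro (⟨h1, h2⟩ | ⟨h1, h2⟩)
      · exact ⟨u, h1, by rw [h2]⟩
      · exact ⟨v, h1, by rw [h2]; exact Sym2.eq_swap⟩
    · rintro ⟨x, hx, h⟩
      rw [Sym2.eq_iff] at h
      rcases h with ⟨h1, h2⟩ | ⟨h1, h2⟩
      · left; subst h1; exact ⟨hx, h2⟩
      · right; subst h1; exact ⟨hx, h2⟩

theorem T_card : T.edgeSet.ncard + 1 = Nat.card Vx := by
  rw [T_edges, Set.ncard_image_of_injOn]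
  · have h1 : {v : Vx | v ≠ root} = {root}ᶜ := by ext; simp
    rw [h1]
    have := Set.ncard_add_ncard_compl ({root} : Set Vx)
    rw [Set.ncard_singleton] at this
    omega
  · intro u hu v hv h
    simp only at h
    rw [Sym2.eq_iff] at h
    rcases h with ⟨h1, h2⟩ | ⟨h1, h2⟩
    · exact h1
    · exfalso
      have e1 := depth_parent u hu
      have e2 := depth_parent v hv
      rw [h2] at e1
      rw [← h1] at e2
      omega

theorem T_tree : T.IsTree := by
  rw [SimpleGraph.isTree_iff_connected_and_card]
  refine ⟨T_conn, ?_⟩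
  have := T_card
  rwa [← Nat.card_coe_set_eq] at this

theorem G_card : Nat.card G.edgeSet = Nat.card Vx := by
  rw [Nat.card_coe_set_eq, ← T_card]
  have : G.edgeSet = insert s(root, p39) T.edgeSet := by
    ext e
    induction e using Sym2.ind with
    | _ u v =>
      simp only [mem_edgeSet, Set.mem_insert_iff]
      constructor
      · rintro (h | ⟨h1, h2⟩ | ⟨h1, h2⟩)
        · exact Or.inr h
        · left; rw [h1, h2]
        · left; rw [h1, h2]; exact Sym2.eq_swap
      · rintro (h | h)
        · rw [Sym2.eq_iff] at h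
          right
          rcases h with ⟨h1, h2⟩ | ⟨h1, h2⟩
          · exact Or.inl ⟨h1, h2⟩
          · exact Or.inr ⟨h2, h1⟩
        · exact Or.inl h
  rw [this, Set.ncard_insert_of_notMem]
  intro h
  rw [mem_edgeSet] at h
  rcases h with ⟨h1, h2⟩ | ⟨h1, h2⟩
  · exact h1 rfl
  · have := congrArg depth h2
    simp [parent, depth] at this

end Pool.Agent.W143.PD
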